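import Mathlib

set_option autoImplicit false

namespace Pool.Agent.H.MP_4977a6_gt

open Set Filter Topology

def hist {α : Type} (F : ℕ → α) : ℕ → List α
  | 0 => []
  | n + 1 => F n :: hist F n

lemma hist_rec {α : Type} (f : List α → α) : ∃ F : ℕ → α, ∀ n, F n = f (hist F n) := by
  let l : ℕ → List α := Nat.rec [] fun _ s => f s :: s
  have h (n : ℕ) : hist (fun n => f (l n)) n = l n := by
    induction n with
    | zero => rfl
    | succ n ih => exact congrArg _ ih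
  exact ⟨_, fun n => congrArg f (h n).symm⟩

lemma hist_map {α β : Type} (f : α → β) (F : ℕ → α) (n : ℕ) :
    (hist F n).map f = hist (fun n => f (F n)) n := by
  induction n with
  | zero => rfl
  | succ n ih => exact congrArg _ ih

lemma length_hist {α : Type} (F : ℕ → α) (n : ℕ) : (hist F n).length = n := by
  induction n with
  | zero => rfl
  | succ n ih => exact congrArg (· + 1) ih

def KC {X : Type} [TopologicalSpace X] (𝒰 : Set (Set X)) : Prop :=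
  (∀ U ∈ 𝒰, IsOpen U) ∧ ⋃₀ 𝒰 = univ ∧ ∀ K, IsCompact K → ∃ U ∈ 𝒰, K ⊆ U

section
variable {Y : Type} [TopologicalSpace Y] [LindelofSpace Y] [Nonempty Y]

lemma lind {V : Y → Set Y} (h : ∀ x, IsOpen (V x) ∧ x ∈ V x) :
    ∃ x : ℕ → Y, ∀ y, ∃ n, y ∈ V (x n) := by
  obtain ⟨S, h1, -, h2⟩ := isLindelof_univ.elim_nhds_subcover V fun x _ => (h x).1.mem_nhds (h x).2
  obtain ⟨x, h3⟩ := (h1.insert (Classical.arbitrary Y)).exists_eq_range (insert_nonempty _ _)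
  refine ⟨x, fun y => ?_⟩
  obtain ⟨z, h4, h5⟩ := mem_iUnion₂.1 (h2 (mem_univ y))
  obtain ⟨n, rfl⟩ : z ∈ range x := h3 ▸ mem_insert_of_mem _ h4
  exact ⟨n, h5⟩

variable (hP : ∀ U : ℕ → Set Y, (∀ n, IsOpen (U n)) → IsOpen (⋂ n, U n))
include hP

lemma sub {𝒰 : Set (Set Y)} (h : KC 𝒰) :
    ∃ e : ℕ → Set Y, (∀ n, e n ∈ 𝒰) ∧ ∀ G : List Y, ∃ n, ∀ y ∈ G, y ∈ e n := by
  have h1 (n : ℕ) : ∀ F : Set Y, F.Finite → ∃ W, IsOpen W ∧ F ⊆ W ∧ ∃ e : ℕ → Set Y,
      (∀ n, e n ∈ 𝒰) ∧ ∀ G : List Y, G.length = n → ∃ n, W ⊆ e n ∧ ∀ y ∈ G, y ∈ e n := by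
    induction n with
    | zero =>
      intro F hF
      obtain ⟨U, h1, h2⟩ := h.2.2 F hF.isCompact
      exact ⟨U, h.1 U h1, h2, fun _ => U, fun _ => h1, fun G hG =>
        ⟨0, subset_rfl, by simp [List.length_eq_zero_iff.1 hG]⟩⟩
    | succ n ih =>
      intro F hF
      choose W h1 h2 e h3 h4 using fun x => ih _ (hF.insert x)
      obtain ⟨x, hx⟩ := lind fun x => ⟨h1 x, h2 x (Or.inl rfl)⟩
      refine ⟨_, hP _ fun i => h1 (x i), subset_iInter fun i => (subset_insert _ _).trans (h2 _),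
        fun m => e (x m.unpair.1) m.unpair.2, fun _ => h3 _ _, ?_⟩
      rintro (_ | ⟨y, G⟩) hG
      · cases hG
      obtain ⟨i, hi⟩ := hx y
      obtain ⟨j, h5, h6⟩ := h4 (x i) G (Nat.succ.inj hG)
      refine ⟨i.pair j, ?_⟩
      simp only [Nat.unpair_pair]
      exact ⟨(iInter_subset _ i).trans h5, List.forall_mem_cons.2 ⟨h5 hi, h6⟩⟩
  choose _ _ _ e h2 h3 using fun n => h1 n ∅ finite_empty
  refine ⟨fun m => e m.unpair.1 m.unpair.2, fun _ => h2 _ _, fun G => ?_⟩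
  obtain ⟨j, -, h4⟩ := h3 _ G rfl
  exact ⟨G.length.pair j, by simpa only [Nat.unpair_pair] using h4⟩

theorem one {ρ : List (Set Y) → Set (Set Y)} (h : ∀ l, KC (ρ l)) :
    ∃ U : ℕ → Set Y, (∀ n, U n ∈ ρ (hist U n)) ∧ KC (range U) := by
  classical
  choose e h1 h2 using fun l => sub hP (h l)
  let H : List ℕ → List (Set Y) := List.rec [] fun k _ l => e l k :: l
  obtain ⟨t, ht⟩ := exists_surjective_nat (List ℕ × ℕ)
  let V (x : Y) := ⋂ i, if x ∈ e (H (t i).1) (t i).2 then e (H (t i).1) (t i).2 else univ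
  have h3 (x : Y) : IsOpen (V x) ∧ x ∈ V x := ⟨hP _ fun i => by
    split_ifs
    exacts [(h _).1 _ (h1 _ _), isOpen_univ], mem_iInter.2 fun i => by split_ifs <;> trivial⟩
  obtain ⟨x, hx⟩ := lind h3
  choose k hk using fun s : List ℕ => h2 (H s) ((List.range s.length).map x)
  obtain ⟨b, hb⟩ := hist_rec k
  have h4 (n : ℕ) : hist (fun n => e (H (hist b n)) (b n)) n = H (hist b n) := by
    induction n with
    | zero => rfl
    | succ n ih => exact congrArg _ ih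
  have h5 (K : Set Y) (hK : IsCompact K) : ∃ U ∈ range fun n => e (H (hist b n)) (b n), K ⊆ U := by
    obtain ⟨T, hT⟩ := hK.elim_finite_subcover _ (fun n => (h3 (x n)).1) fun y _ => mem_iUnion.2 (hx y)
    refine ⟨_, ⟨T.sup id + 1, rfl⟩, hT.trans (iUnion₂_subset fun n hn => ?_)⟩
    obtain ⟨i, hi⟩ := ht (hist b (T.sup id + 1), b (T.sup id + 1))
    refine (iInter_subset _ i).trans ?_
    rw [hi, if_pos]
    rw [hb]
    exact hk _ _ (List.mem_map_of_mem (List.mem_range.2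
      ((Nat.lt_succ_of_le (Finset.le_sup (f := id) hn)).trans_eq (length_hist b _).symm)))
  exact ⟨_, fun n => (h4 n).symm ▸ h1 _ _, forall_mem_range.2 fun n => (h _).1 _ (h1 _ _),
    eq_univ_of_forall fun y => (h5 _ isCompact_singleton).imp fun _ h => ⟨h.1, h.2 rfl⟩, h5⟩

end

abbrev W : Type := (Cardinal.aleph 1).ord.ToType

lemma W_Iic (a : W) : (Iic a).Countable := by
  have h : (Iio a).Countable := by
    rw [← Cardinal.le_aleph0_iff_set_countable, ← Order.lt_succ_iff, Cardinal.succ_aleph0]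
    exact Cardinal.mk_Iio_toType_ord_lt a
  rw [← Iio_union_right]
  exact h.union (countable_singleton a)

lemma W_bdd {A : Set W} (hA : A.Countable) : ∃ b, ∀ a ∈ A, a < b := by
  by_contra! h
  refine absurd ((hA.biUnion fun a _ => W_Iic a).mono fun b (_ : b ∈ univ) =>
    (h b).elim fun a h => mem_biUnion h.1 h.2) ?_
  rw [← Cardinal.le_aleph0_iff_set_countable, Cardinal.mk_univ, Cardinal.mk_ord_toType, not_le]
  exact Cardinal.aleph0_lt_aleph_one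

def Lad (δ : W) (s : Set W) : Prop := s ⊆ Iio δ ∧ ∀ β < δ, (s ∩ Iio β).Finite

lemma close (g : List W → W) :
    ∃ δ, (∃ s, s.Infinite ∧ Lad δ s) ∧ ∀ l, (∀ a ∈ l, a < δ) → g l < δ := by
  have h1 (a : W) : ∃ b, a < b ∧ ∀ l, (∀ c ∈ l, c ≤ a) → g l < b := by
    have := (W_Iic a).to_subtype
    obtain ⟨b, hb⟩ := W_bdd ((countable_range fun l : List (Iic a) => g (l.map (↑))).insert a)
    refine ⟨b, hb a (Or.inl rfl), fun l hl => ?_⟩
    lift l to List (Iic a) using hl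
    exact hb _ (Or.inr ⟨l, rfl⟩)
  choose f h1 h2 using h1
  let d (n : ℕ) := f^[n] (g [])
  have h3 : StrictMono d := strictMono_nat_of_lt_succ fun n =>
    (h1 _).trans_eq (Function.iterate_succ_apply' f n _).symm
  obtain ⟨δ, h4, h5⟩ := wellFounded_lt.has_min {b | ∀ a ∈ range d, a < b} (W_bdd (countable_range d))
  have h6 (β : W) (h : β < δ) : ∀ᶠ n in atTop, β ≤ d n := by
    obtain ⟨n, hn⟩ : ∃ n, β ≤ d n := by
      by_contra! h6
      exact h5 β (forall_mem_range.2 h6) h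
    exact (eventually_ge_atTop n).mono fun m hm => hn.trans (h3.monotone hm)
  refine ⟨δ, ⟨_, infinite_range_of_injective h3.injective, h4, fun β h => ?_⟩, fun l hl => ?_⟩
  · obtain ⟨n, hn⟩ := eventually_atTop.1 (h6 β h)
    refine ((finite_Iio n).image d).subset ?_
    rintro _ ⟨⟨m, rfl⟩, h7⟩
    exact ⟨m, lt_of_not_ge fun h => (hn m h).not_gt h7, rfl⟩
  · obtain ⟨n, hn⟩ := ((eventually_all_finite l.finite_toSet).2 fun a h => h6 a (hl a h)).exists
    exact (h2 _ l hn).trans (h4 _ ⟨n + 1, Function.iterate_succ_apply' f n _⟩)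

lemma exists_c : ∃ c : W → Set W, ∀ δ, Lad δ (c δ) ∧
    ((∃ s, s.Infinite ∧ Lad δ s) → (c δ).Infinite) := by
  refine Classical.skolem (p := fun δ (s : Set W) => Lad δ s ∧ (_ → s.Infinite)) |>.1 fun δ => ?_
  by_cases h : ∃ s, s.Infinite ∧ Lad δ s
  · exact h.imp fun _ h => ⟨h.2, fun _ => h.1⟩
  · exact ⟨∅, ⟨empty_subset _, by simp⟩, fun h' => (h h').elim⟩

noncomputable def c : W → Set W := exists_c.choose

def X : Type := {x : Set W // x.Finite ∨ x ∈ range c}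

def N (x : X) (β : W) : Set X := {y | y.1 ∩ Iio β = x.1 ∩ Iio β}

lemma N_anti (x : X) {β γ : W} (h : β ≤ γ) : N x γ ⊆ N x β := fun y (hy : _ = _) => by
  have k (s : Set W) : s ∩ Iio β = s ∩ Iio γ ∩ Iio β := by
    rw [inter_assoc, inter_eq_self_of_subset_right (Iio_subset_Iio h)]
  exact (k _).trans (hy ▸ (k _).symm)

instance : TopologicalSpace X where
  IsOpen U := ∀ x ∈ U, ∃ β, N x β ⊆ U
  isOpen_univ x _ := ⟨(W_bdd countable_empty).choose, subset_univ _⟩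
  isOpen_inter U V h h' x hx := by
    obtain ⟨a, ha⟩ := h x hx.1
    obtain ⟨b, hb⟩ := h' x hx.2
    exact ⟨max a b, subset_inter ((N_anti x (le_max_left a b)).trans ha)
      ((N_anti x (le_max_right a b)).trans hb)⟩
  isOpen_sUnion S h := fun x ⟨U, h1, h2⟩ =>
    (h U h1 x h2).imp fun _ h => h.trans (subset_sUnion_of_mem h1)

instance : Nonempty X := ⟨⟨∅, Or.inl finite_empty⟩⟩

lemma N_clopen (x : X) (β : W) : IsClopen (N x β) :=
  ⟨⟨fun _ h => ⟨β, fun _ h' h'' => h (Eq.trans (Eq.symm h') h'')⟩⟩,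
    fun _ h => ⟨β, fun _ h' => Eq.trans h' h⟩⟩

lemma hP (U : ℕ → Set X) (h : ∀ n, IsOpen (U n)) : IsOpen (⋂ n, U n) := fun x hx => by
  choose β hβ using fun n => h n x (mem_iInter.1 hx n)
  exact (W_bdd (countable_range β)).imp fun b hb => subset_iInter fun n =>
    (N_anti x (hb _ ⟨n, rfl⟩).le).trans (hβ n)

instance : T35Space X :=
  have : T0Space X := ⟨fun x y h => Subtype.ext (Set.ext fun a => by
    obtain ⟨b, hb⟩ := W_bdd (countable_singleton a)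
    have := Set.ext_iff.1 ((h.mem_open_iff (N_clopen y b).2).2 rfl) a
    simpa [hb a rfl] using this)⟩
  have : CompletelyRegularSpace X := .of_isTopologicalBasis_clopens
    (TopologicalSpace.isTopologicalBasis_of_isOpen_of_nhds (fun _ h => h.2) fun x _ hx hU =>
      (hU x hx).elim fun β h => ⟨_, N_clopen x β, rfl, h⟩)
  {}

instance : LindelofSpace X := ⟨isLindelof_of_countable_subcover fun U h1 h2 => by
  choose i hi using fun x => mem_iUnion.1 (h2 (mem_univ x))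
  choose β hβ using fun x => h1 _ x (hi x)
  obtain ⟨δ, -, h3⟩ := close fun l => β ⟨{a | a ∈ l}, Or.inl l.finite_toSet⟩
  refine ⟨i '' (Subtype.val ⁻¹' ({s | s.Finite ∧ s ⊆ Iic δ} ∪ c '' Iic δ)),
    (((countable_ofPred_finite_subset (W_Iic δ)).union ((W_Iic δ).image c)).preimage
      Subtype.val_injective).image i, fun y _ => ?_⟩
  by_cases h4 : (y.1 ∩ Iio δ).Finite
  · have h5 := h3 h4.toFinset.toList fun a h => (h4.mem_toFinset.1 (Finset.mem_toList.1 h)).2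
    simp only [Finset.mem_toList, h4.mem_toFinset, ofPred_mem_eq] at h5
    refine mem_biUnion ⟨⟨_, Or.inl h4⟩, Or.inl ⟨h4, fun _ h => Iio_subset_Iic_self h.2⟩, rfl⟩ (hβ _ (N_anti _ h5.le ?_))
    exact (inter_eq_self_of_subset_left inter_subset_right).symm
  · obtain h5 | ⟨γ, h5⟩ := y.2
    · exact (h4 (h5.subset inter_subset_left)).elim
    exact mem_biUnion (mem_image_of_mem i (Or.inr ⟨γ, le_of_not_gt fun h =>
      h4 (h5 ▸ (exists_c.choose_spec γ).1.2 δ h), h5⟩)) (hi y)⟩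

lemma core {T : List W → W → Set X} (hT : ∀ h β, (T h β).Finite) :
    ∃ (b : ℕ → W) (y : X), ∀ n, ∀ x ∈ T (hist b n) (b n), y ∉ N x (b n) := by
  let S (h : List W) (α : W) := {δ | (∀ β < δ, ∃ x ∈ T h β, c δ ∩ Iio β = x.1 ∩ Iio β) ∧ α ∈ c δ}
  have h1 (h α) : ∃ b, (S h α).Countable → ∀ δ ∈ S h α, δ < b := by
    by_cases h1 : (S h α).Countable
    exacts [(W_bdd h1).imp fun _ h _ => h, ⟨α, fun h => (h1 h).elim⟩]
  choose g hg using h1
  obtain ⟨δ, h1, h2⟩ := close fun l => l.casesOn (W_bdd countable_empty).choose fun α h => g h α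
  have h3 (h : List W) : ∃ β < δ, (∀ a ∈ h, a < δ) → ∀ x ∈ T h β, c δ ∩ Iio β ≠ x.1 ∩ Iio β := by
    by_contra! h3
    have h4 : {α | ¬ (S h α).Countable}.Finite := by_contra fun h4 => by
      obtain ⟨A, h5, h6, h7⟩ := Infinite.exists_subset_countable_infinite h4
      obtain ⟨β, hβ⟩ := W_bdd h6
      refine h7 ((((hT h β).sep fun x => (x.1 ∩ Iio β).Finite).biUnion fun _ h => h.2).subset
        fun α hα => ?_)
      obtain ⟨γ, h8, h9⟩ := not_subset.1 fun h => h5 hα ((W_Iic β).mono h)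
      obtain ⟨x, k1, k2⟩ := h8.1 β (lt_of_not_ge h9)
      exact mem_biUnion ⟨k1, k2 ▸ (exists_c.choose_spec γ).1.2 β (lt_of_not_ge h9)⟩
        (k2 ▸ ⟨h8.2, hβ α hα⟩)
    obtain ⟨α, h5, h6⟩ := ((exists_c.choose_spec δ).2 h1).exists_notMem_finite h4
    exact (h2 (α :: h) (List.forall_mem_cons.2 ⟨(exists_c.choose_spec δ).1.1 h5,
      (h3 _ (h2 [] nofun)).1⟩)).not_gt (hg h α (not_not.1 h6) δ ⟨fun β hβ => (h3 β hβ).2, h5⟩)
  choose β h3 h4 using h3
  obtain ⟨b, hb⟩ := hist_rec β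
  refine ⟨b, ⟨_, Or.inr ⟨δ, rfl⟩⟩, fun n => hb n ▸ h4 _ ?_⟩
  induction n with
  | zero => nofun
  | succ n ih => exact List.forall_mem_cons.2 ⟨hb n ▸ h3 _, ih⟩

theorem two (σ : List (Set (Set X)) → Set (Set X) → Set (Set X)) :
    ∃ 𝒰 : ℕ → Set (Set X), (∀ n, KC (𝒰 n)) ∧
      ((∀ n, (σ (hist 𝒰 n) (𝒰 n)).Finite ∧ σ (hist 𝒰 n) (𝒰 n) ⊆ 𝒰 n) →
        ⋃₀ (⋃ n, σ (hist 𝒰 n) (𝒰 n)) ≠ univ) := by
  let 𝒱 (β : W) : Set (Set X) := {U | ∃ F : Set X, F.Finite ∧ U = ⋃ x ∈ F, N x β}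
  have h1 (h : List W) (β : W) : ∃ T : Set X, T.Finite ∧ ((σ (h.map 𝒱) (𝒱 β)).Finite ∧
      σ (h.map 𝒱) (𝒱 β) ⊆ 𝒱 β → ∀ U ∈ σ (h.map 𝒱) (𝒱 β), U ⊆ ⋃ x ∈ T, N x β) := by
    by_cases h1 : (σ (h.map 𝒱) (𝒱 β)).Finite ∧ σ (h.map 𝒱) (𝒱 β) ⊆ 𝒱 β
    · choose! F h2 h3 using fun U (hU : U ∈ σ (h.map 𝒱) (𝒱 β)) => h1.2 hU
      exact ⟨_, h1.1.biUnion h2, fun _ U hU => (h3 U hU).subset.trans
        (biUnion_subset_biUnion_left (subset_biUnion_of_mem hU))⟩
    · exact ⟨∅, finite_empty, fun h => (h1 h).elim⟩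
  choose T h1 h2 using h1
  obtain ⟨b, y, h3⟩ := core h1
  refine ⟨fun n => 𝒱 (b n), fun n => ⟨?_, eq_univ_of_forall fun x =>
    ⟨_, ⟨{x}, finite_singleton x, rfl⟩, mem_biUnion rfl rfl⟩, fun K hK => ?_⟩, fun h4 h5 => ?_⟩
  · rintro _ ⟨F, -, rfl⟩
    exact isOpen_biUnion fun x _ => (N_clopen x _).2
  · obtain ⟨F, hF⟩ := hK.elim_finite_subcover _ (fun x => (N_clopen x (b n)).2)
      fun x _ => mem_iUnion.2 ⟨x, rfl⟩
    exact ⟨_, ⟨F, F.finite_toSet, rfl⟩, hF⟩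
  obtain ⟨U, h6, h7⟩ := eq_univ_iff_forall.1 h5 y
  obtain ⟨n, h6⟩ := mem_iUnion.1 h6
  rw [← hist_map] at h6
  obtain ⟨x, h8, h9⟩ := mem_iUnion₂.1 (h2 (hist b n) (b n) (hist_map 𝒱 b n ▸ h4 n) U h6 h7)
  exact h3 n x h8 h9

end Pool.Agent.H.MP_4977a6_gt
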